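import Pool.Agent.helper52.GN.GN13
import Pool.Agent.helper74.TG.Fin

/-!
# Every sufficiently large integer is a value of the group number function

The order is `n = 7 w³ v² B C D` with `6 gnu(n) = 45 C + 36 B + 4 D + 641`; every large `6 k - 641` is
of the form `45 C + 36 B + 4 D` with suitable primes (Vinogradov's method in residue classes).
-/

namespace Pool.Agent.Results.MP_d11331_al.AllLargeIntegers

open Pool.Agent.helper74

/-- There is `K` such that every `k ≥ K` is the number of groups of some order `n > 0`. -/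
theorem result : ∃ K : ℕ, ∀ k : ℕ, K ≤ k → ∃ n : ℕ, 0 < n ∧
    ∃ (G : Fin k → Type) (_ : ∀ i, Group (G i)),
      (∀ i, Nat.card (G i) = n) ∧
      (∀ i j, Nonempty (G i ≃* G j) → i = j) ∧
      ∀ (H : Type) [Group H], Nat.card H = n → ∃ i, Nonempty (H ≃* G i) := by
  obtain ⟨K₀, hK₀⟩ := TG.Fin.BCD_exist
  refine ⟨K₀, fun k hk => ?_⟩
  obtain ⟨B, C, D, pB, pC, pD, B7, C7, D7, hBC, hBD, hCD, hD42, hB1, hC1, hBC', hCB', hBD', hDB',
    hCD', hDC', hsum⟩ := hK₀ k hk
  exact GN.gnu_count (B := B) (C := C) (D := D)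
    ⟨pB, pC, pD, B7, C7, D7, hBC, hBD, hCD, hD42, hB1, hC1, hBC', hCB', hBD', hDB', hCD', hDC'⟩
    k hsum

end Pool.Agent.Results.MP_d11331_al.AllLargeIntegers
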